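import Pool.Agent.MPV.Cnt

/-!
# The most-pivotal-site algorithm leaves a positive fraction of the sites unqueried (MP_3545df_pr)

For the most-pivotal-site algorithm on the `n × n` rhombus of the triangular lattice, every law `μ` of the first site and every
(history dependent) tie-breaking rule, `E[N_n] ≤ n² - ⌊(n-2)/5⌋ ⌊n/4⌋ / 256`, so `limsup E[N_n]/n² ≤ 1 - 1/5120`.

It follows from a pathwise statement (`Pool.Agent.MPV.noTri`): the queried sites never contain a monochromatic triangle of side
`4` (ten sites) off the left and right sides.

Proof: a domination lemma (`Pool.Agent.MPV.dom`). If `x`, `y` are unqueried and `x` is dead as soon as `y` has colour `c`, then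
`y` is at least as likely to be pivotal as `x`, with equality only if `y` is dead as soon as `x` has colour `c`. Four consecutive
neighbours of one colour kill a site. The last queried site of the inner seven sites of a monochromatic triangle of side `4`
contradicts this.
-/

set_option autoImplicit false

open Pool.Agent.MPV

namespace Pool.Agent.Results.MP_3545df_pr.UnqueriedFraction

theorem result (n : ℕ) (hn : 1 ≤ n) :
    (∃ τ : Hist (Site n) → Site n, MostPivotal cross τ) ∧
    ∀ τ : Hist (Site n) → Site n, MostPivotal cross τ →
      ∀ μ : Site n → ℝ, (∀ x, 0 ≤ μ x) → ∑ x, μ x = 1 →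
        expN cross μ τ ≤ (n : ℝ) ^ 2 - (((n - 2) / 5 : ℕ) : ℝ) * ((n / 4 : ℕ) : ℝ) / 256 := by
  have hne : Nonempty (Site n) := ⟨(⟨0, by omega⟩, ⟨0, by omega⟩)⟩
  exact ⟨exists_rule cross, fun τ hτ μ hμ hμ1 => expN_bound hμ hμ1 hτ⟩

end Pool.Agent.Results.MP_3545df_pr.UnqueriedFraction
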